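import Pool.Agent.helper85.AQ.SpecB

/-!
# MP_3703a7, project aq: row BPL
-/

set_option autoImplicit false

namespace Pool.Agent.AQ

open Polynomial Pool.Agent.HC Pool.Agent.HC.SJ Pool.Agent.SJ Pool.Agent.GJ Pool.Agent.TK Pool.Agent.CM
open Pool.Agent.TQJ Pool.Agent.TQG
open Pool.Agent.FJ (VT Om chiO rf rs IsFrobO)
open Pool.Agent.TD (zK DvK bC mK IsPhiK Stab)
open scoped TensorProduct NumberField

noncomputable section

/-! ## Roots of unity -/

theorem BPL_mem {K : Type} [Field K] (O : ValuationSubring K) (l : ℕ) (hl : 0 < l) (s : K)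
    (hs : s ^ l = 1) : s ∈ O := by
  rcases O.mem_or_inv_mem s with h | h
  · exact h
  · have hs0 : s ≠ 0 := by
      rintro rfl
      rw [zero_pow hl.ne'] at hs
      exact zero_ne_one hs
    have h1 : s = (s⁻¹) ^ (l - 1) := by
      rw [inv_pow]
      refine eq_inv_of_mul_eq_one_left ?_
      rw [← pow_succ', Nat.sub_add_cancel hl, hs]
    rw [h1]
    exact pow_mem h _

theorem BPL_uni {K : Type} [Field K] (O : ValuationSubring K) (l : ℕ) (hl : ((l : ℕ) : rf O) ≠ 0)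
    (x y : O) (hx : x ^ l = 1) (hy : y ^ l = 1) (h : rs O x = rs O y) : x = y := by
  have hl0 : 0 < l := by
    rcases Nat.eq_zero_or_pos l with h0 | h0
    · rw [h0] at hl
      exact absurd Nat.cast_zero hl
    · exact h0
  obtain ⟨z, hz⟩ : ∃ z : O, z = x * y ^ (l - 1) := ⟨_, rfl⟩
  have hzl : z ^ l = 1 := by
    rw [hz, mul_pow, hx, one_mul, ← pow_mul, mul_comm, pow_mul, hy, one_pow]
  have hyl : y ^ (l - 1) * y = 1 := by
    rw [← pow_succ, Nat.sub_add_cancel hl0, hy]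
  have hrz : rs O z = 1 := by
    rw [hz, map_mul, h, ← map_mul, mul_comm, hyl, map_one]
  have hz1 : z = 1 := by
    by_contra hne
    have h1 : (∑ i ∈ Finset.range l, z ^ i) * (z - 1) = 0 := by
      rw [geom_sum_mul, hzl, sub_self]
    have h2 : ∑ i ∈ Finset.range l, z ^ i = 0 := by
      rcases mul_eq_zero.1 h1 with h3 | h3
      · exact h3
      · exact absurd (sub_eq_zero.1 h3) hne
    have h3 := congrArg (rs O) h2
    rw [map_sum, map_zero] at h3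
    apply hl
    rw [← h3]
    simp only [map_pow, hrz, one_pow, Finset.sum_const, Finset.card_range, nsmul_eq_mul, mul_one]
  calc x = x * (y ^ (l - 1) * y) := by rw [hyl, mul_one]
    _ = z * y := by rw [hz, mul_assoc]
    _ = y := by rw [hz1, one_mul]

/-! ## The class group of the reduction -/

section red

variable {k : Type} [Field k] [IsAlgClosed k] {l n : ℕ} [Fact l.Prime] [NeZero (l : k)]
  {μ : Fin (n + 1) → ℕ} {b : Fin (n + 1) → k} [Good k l μ b] [IsDedekindDomain (CR k l μ b)]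

theorem BPL_ext (h7 : KA7_stmt) (E E' : ClassGroup (CR k l μ b) →* ClassGroup (CR k l μ b))
    (h : ∀ q : Pc k l μ b, E (cl q) = E' (cl q)) (C : ClassGroup (CR k l μ b)) : E C = E' C := by
  obtain ⟨S, rfl⟩ := (h7 k l n μ b).2.1 C
  rw [map_multiset_prod, map_multiset_prod, Multiset.map_map, Multiset.map_map]
  exact congrArg Multiset.prod (Multiset.map_congr rfl (fun q _ => h q))

theorem BPL_it {G : Type} [Group G] (R : G →* G) (j : ℕ) :
    ∃ Rj : G →* G, ∀ C, Rj C = R^[j] C := by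
  induction j with
  | zero => exact ⟨MonoidHom.id G, fun _ => rfl⟩
  | succ j ih =>
    obtain ⟨Rj, hj⟩ := ih
    refine ⟨Rj.comp R, fun C => ?_⟩
    rw [Function.iterate_succ_apply, MonoidHom.comp_apply, hj]

theorem BPL_pow (hBT1 : BT1_stmt) (s : k) (π : Equiv.Perm (Fin (n + 1)))
    (hQ : IsQ l μ b b (RingEquiv.refl k) s 0 1 π)
    (R : ClassGroup (CR k l μ b) →* ClassGroup (CR k l μ b))
    (hR : IsT (RingEquiv.refl k) s 0 1 R) (j : ℕ) : ∀ q q' : Pc k l μ b,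
    q'.1.1 = s ^ j * q.1.1 → q'.1.2 = q.1.2 → R^[j] (cl q) = cl q' := by
  induction j with
  | zero =>
    intro q q' h1 h2
    rw [pow_zero, one_mul] at h1
    have h3 : q = q' := Subtype.ext (Prod.ext h1.symm h2.symm)
    rw [h3]
    rfl
  | succ j ih =>
    intro q q' h1 h2
    obtain ⟨q1, e1, e2⟩ := (hBT1 k k l n μ b b (RingEquiv.refl k) s 0 1 π hQ).2 q
    rw [Function.iterate_succ_apply, hR q q1 e1 e2]
    have e1' : q1.1.1 = s * q.1.1 := by
      rw [e1, add_zero]; rfl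
    have e2' : q1.1.2 = q.1.2 := by
      rw [e2, one_mul]; rfl
    refine ih q1 q' ?_ ?_
    · rw [h1, e1', pow_succ]
      ring
    · rw [h2, e2']

theorem BPL_com (hBT1 : BT1_stmt) (h7 : KA7_stmt) (s : k) (π : Equiv.Perm (Fin (n + 1)))
    (hQ : IsQ l μ b b (RingEquiv.refl k) s 0 1 π)
    (R : ClassGroup (CR k l μ b) →* ClassGroup (CR k l μ b))
    (hR : IsT (RingEquiv.refl k) s 0 1 R) (p : ℕ) (φ' : k ≃+* k) (hφ : φ' s = s ^ p) (c d : k)
    (π' : Equiv.Perm (Fin (n + 1))) (hQ' : IsQ l μ b b φ' c 0 d π')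
    (P : ClassGroup (CR k l μ b) →* ClassGroup (CR k l μ b)) (hP : IsT φ' c 0 d P)
    (C : ClassGroup (CR k l μ b)) : P (R C) = R^[p] (P C) := by
  obtain ⟨Rp, hRp⟩ := BPL_it R p
  have h := BPL_ext h7 (P.comp R) (Rp.comp P) (fun q => ?_) C
  · rw [MonoidHom.comp_apply, MonoidHom.comp_apply, hRp] at h
    exact h
  · rw [MonoidHom.comp_apply, MonoidHom.comp_apply, hRp]
    obtain ⟨q1, e1, e2⟩ := (hBT1 k k l n μ b b (RingEquiv.refl k) s 0 1 π hQ).2 q
    obtain ⟨q2, f1, f2⟩ := (hBT1 k k l n μ b b φ' c 0 d π' hQ').2 q1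
    obtain ⟨q3, g1, g2⟩ := (hBT1 k k l n μ b b φ' c 0 d π' hQ').2 q
    rw [hR q q1 e1 e2, hP q1 q2 f1 f2, hP q q3 g1 g2]
    have e1' : q1.1.1 = s * q.1.1 := by
      rw [e1, add_zero]; rfl
    have e2' : q1.1.2 = q.1.2 := by
      rw [e2, one_mul]; rfl
    refine (BPL_pow hBT1 s π hQ R hR p q3 q2 ?_ ?_).symm
    · rw [f1, g1, e1', map_mul, hφ]
      ring
    · rw [f2, g2, e2']

theorem BPL_cmp (hBT1 : BT1_stmt) (h7 : KA7_stmt) (s d : k) (hd : d ≠ 0)
    (π : Equiv.Perm (Fin (n + 1)))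
    (hQ : IsQ l μ b b (RingEquiv.refl k) s 0 d π)
    (R : ClassGroup (CR k l μ b) →* ClassGroup (CR k l μ b))
    (hR : IsT (RingEquiv.refl k) s 0 1 R)
    (E1 : ClassGroup (CR k l μ b) →* ClassGroup (CR k l μ b))
    (hE1 : IsT (RingEquiv.refl k) s 0 d E1)
    (hQ2 : IsQ l μ b b (RingEquiv.refl k) 1 0 d⁻¹ 1)
    (E2 : ClassGroup (CR k l μ b) →* ClassGroup (CR k l μ b))
    (hE2 : IsT (RingEquiv.refl k) 1 0 d⁻¹ E2)
    (C : ClassGroup (CR k l μ b)) : E1 (E2 C) = R C := by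
  have h := BPL_ext h7 (E1.comp E2) R (fun q => ?_) C
  · exact h
  · rw [MonoidHom.comp_apply]
    obtain ⟨q1, e1, e2⟩ := (hBT1 k k l n μ b b (RingEquiv.refl k) 1 0 d⁻¹ 1 hQ2).2 q
    obtain ⟨q2, f1, f2⟩ := (hBT1 k k l n μ b b (RingEquiv.refl k) s 0 d π hQ).2 q1
    rw [hE2 q q1 e1 e2, hE1 q1 q2 f1 f2]
    have e1' : q1.1.1 = q.1.1 := by
      rw [e1, add_zero, one_mul]; rfl
    have e2' : q1.1.2 = d⁻¹ * q.1.2 := e2
    refine (hR q q2 ?_ ?_).symm
    · rw [f1, e1']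
    · rw [f2, e2']
      show d * (d⁻¹ * q.1.2) = 1 * q.1.2
      rw [mul_inv_cancel_left₀ hd, one_mul]

end red

/-- roots of unity of the residue field lift -/
theorem BPL_lift (O : ValuationSubring Om) (l : ℕ) [Fact l.Prime] (hl : ((l : ℕ) : rf O) ≠ 0)
    (d : rf O) (hd : d ^ l = 1) : ∃ (r : rootsOfUnity l Om) (y : O),
      (y : Om) = ((r : Omˣ) : Om) ∧ rs O y = d := by
  have hlp : l.Prime := Fact.out
  have : NeZero l := ⟨hlp.ne_zero⟩
  obtain ⟨ζ, hζ⟩ := HasEnoughRootsOfUnity.exists_primitiveRoot Om l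
  have hζO : ζ ∈ O := BPL_mem O l hlp.pos ζ hζ.pow_eq_one
  obtain ⟨z, hz⟩ : ∃ z : O, (z : Om) = ζ := ⟨⟨ζ, hζO⟩, rfl⟩
  have hzl : z ^ l = 1 := by
    apply Subtype.ext
    show ((z ^ l : O) : Om) = 1
    rw [SubmonoidClass.coe_pow, hz, hζ.pow_eq_one]
  have hz1 : rs O z ≠ 1 := by
    intro h
    have h1 := BPL_uni O l hl z 1 hzl (one_pow l) (by rw [h, map_one])
    have h2 : ζ = 1 := by rw [← hz, h1]; rfl
    exact hζ.ne_one hlp.one_lt h2
  have hprim : IsPrimitiveRoot (rs O z) l := by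
    have h1 : orderOf (rs O z) = l :=
      orderOf_eq_prime (by rw [← map_pow, hzl, map_one]) hz1
    have h2 := IsPrimitiveRoot.orderOf (rs O z)
    rwa [h1] at h2
  obtain ⟨i, _, hi⟩ := hprim.eq_pow_of_pow_eq_one hd
  have hu : (ζ ^ i) ^ l = 1 := by
    rw [← pow_mul, mul_comm, pow_mul, hζ.pow_eq_one, one_pow]
  refine ⟨rootsOfUnity.mkOfPowEq (ζ ^ i) hu, z ^ i, ?_, ?_⟩
  · rw [SubmonoidClass.coe_pow, hz]
    exact (rootsOfUnity.val_mkOfPowEq_coe _ hu).symm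
  · rw [map_pow, hi]

/-- an automorphism which is trivial on the roots of unity of the residue field -/
theorem BPL_fix (O : ValuationSubring Om) (l : ℕ) [Fact l.Prime] (hl : ((l : ℕ) : rf O) ≠ 0)
    (σ : Om ≃+* Om) (h : ∀ x : O, x ^ l = 1 → ∃ y : O, (y : Om) = σ (x : Om) ∧ rs O y = rs O x)
    (s : Om) (hs : s ^ l = 1) : σ s = s := by
  have hlp : l.Prime := Fact.out
  obtain ⟨x, hx⟩ : ∃ x : O, (x : Om) = s := ⟨⟨s, BPL_mem O l hlp.pos s hs⟩, rfl⟩
  have hxl : x ^ l = 1 := by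
    apply Subtype.ext
    show ((x ^ l : O) : Om) = 1
    rw [SubmonoidClass.coe_pow, hx, hs]
  obtain ⟨y, hy, hy2⟩ := h x hxl
  have hyl : y ^ l = 1 := by
    apply Subtype.ext
    show ((y ^ l : O) : Om) = 1
    rw [SubmonoidClass.coe_pow, hy, ← map_pow, hx, hs, map_one]
  have h1 := BPL_uni O l hl y x hyl hxl hy2
  rw [← hx, ← hy, h1]

theorem BPL (hBFR : BFR_stmt) (hBIF : BIF_stmt) (hBST : BST_stmt) (hBRO : BRO_stmt) (hBT1 : BT1_stmt) (hBT2 : BT2_stmt) (h4 : KA4_stmt) (h7 : KA7_stmt) (hF1 : FJ.B1_stmt) : BPL_stmt := by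
  intro l p _ _ hl2 hlp D hPF i hm hmp hμ F u hF hE hFa
  have hlP : l.Prime := Fact.out
  have hpP : p.Prime := Fact.out
  obtain ⟨O, φ, hch, hSφ, hFrob⟩ := hBFR p
  have hlnp : l ≠ p := by
    intro h
    rw [← h] at hlp
    have h1 := Nat.le_of_dvd (Nat.sub_pos_of_lt hlP.one_lt) hlp
    have h2 := hlP.pos
    omega
  have hl0 : ((l : ℕ) : rf O) ≠ 0 := by
    intro h
    rw [CharP.cast_eq_zero_iff (rf O) p] at h
    exact hlnp ((Nat.prime_dvd_prime_iff_eq hpP hlP).1 h).symm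
  have : NeZero ((l : ℕ) : rf O) := ⟨hl0⟩
  have : IsAlgClosed (rf O) := (hF1 Om O).1
  have : NeZero ((l : ℕ) : Om) := ⟨by exact_mod_cast hlP.ne_zero⟩
  have : IsDedekindDomain (CR Om l (D.μ i) (D.a i)) := h4 Om l (D.n i) (D.μ i) (D.a i)
  obtain ⟨τ, hSτ, hτr, hτa⟩ := hBIF O p (D.n i) hm hmp F hF hE (fun j => D.a i j - (u : Om)) hFa
  have hτ : PF D τ := by
    refine hPF τ (BPL_fix O l hl0 τ (fun x _ => ?_))
    have h1 : τ (x : Om) ∈ O := (hSτ _).1 x.2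
    exact ⟨⟨τ (x : Om), h1⟩, rfl, hτr x _ rfl⟩
  have hφ : PF D φ := by
    refine hPF φ (BPL_fix O l hl0 φ (fun x hx => ?_))
    obtain ⟨y, hy, hy2⟩ := hFrob x
    refine ⟨y, hy, ?_⟩
    rw [hy2]
    have h1 : rs O x ^ l = 1 := by rw [← map_pow, hx, map_one]
    obtain ⟨c, hc⟩ := hlp
    have h2 : p = l * c + 1 := by have := hpP.pos; omega
    rw [h2, pow_succ, pow_mul, h1, one_pow, one_mul]
  have hπ := (hτ.2 i).choose_spec
  have hπ' := (hφ.2 i).choose_spec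
  have hn0 : 0 < D.n i := by
    have := hm.one_lt
    omega
  have hpn : ¬ p ∣ D.n i + 1 := fun h => hmp ((Nat.prime_dvd_prime_iff_eq hpP hm).1 h).symm
  obtain ⟨b, hGb, hDb, S, hb0, hb1, hinj, hEq, hZ⟩ :=
    hBST O l (D.n i) p hl2 hlnp hn0 hpn (D.μ i) (D.a i) hμ F u hF hE hFa
  have hR1 : Rd O τ (RingEquiv.refl (rf O)) := fun y z h => (hτr y z h).symm
  obtain ⟨d, hQd, hSd⟩ := hEq τ (RingEquiv.refl (rf O)) hSτ hR1 _ hπ
  have hR2 : Rd O φ (frobeniusEquiv (rf O) p) := by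
    intro y z h
    obtain ⟨y', hy, hy2⟩ := hFrob y
    have h1 : y' = z := Subtype.ext (hy.trans h)
    rw [← h1, hy2]
    rfl
  obtain ⟨d', hQd', hSd'⟩ := hEq φ (frobeniusEquiv (rf O) p) hSφ hR2 _ hπ'
  obtain ⟨s, hs⟩ : ∃ s, s = b ((hτ.2 i).choose 0) := ⟨_, rfl⟩
  rw [← hs] at hQd hSd
  have hsm : s ^ (D.n i + 1) = 1 := by rw [hs]; exact hb1 _
  have hs1 : s ≠ 1 := by
    intro h
    have h1 : (hτ.2 i).choose 0 = 0 := hGb.inj (by rw [← hs, h, hb0])
    have h2 : τ (D.a i 0) = D.a i ((hτ.2 i).choose 0) := hπ.pt 0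
    rw [h1] at h2
    apply hτa
    show τ (D.a i 0 - (u : Om)) = D.a i 0 - (u : Om)
    rw [map_sub, h2, map_intCast]
  have hsum : s ^ (∑ j, D.μ i j) = 1 := by
    have h1 : ∑ j, D.μ i j = (D.n i + 1) * D.μ i 0 := by
      rw [Finset.sum_congr rfl (fun j _ => hμ j), Finset.sum_const, Finset.card_univ,
        Fintype.card_fin, smul_eq_mul]
    rw [h1, pow_mul, hsm, one_pow]
  have hdl : d ^ l = 1 := by rw [hQd.rel, hsum]
  have hd0 : d ≠ 0 := by
    rintro rfl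
    rw [zero_pow hlP.ne_zero] at hdl
    exact zero_ne_one hdl
  obtain ⟨r, y, hyr, hyd⟩ := BPL_lift O l hl0 d hdl
  have hQR : IsQ l (D.μ i) b b (RingEquiv.refl (rf O)) s 0 1 (hτ.2 i).choose :=
    ⟨hQd.ne, hQd.pt, hQd.wt, by rw [one_pow, hsum]⟩
  obtain ⟨R', hR⟩ := (hBT1 (rf O) (rf O) l (D.n i) (D.μ i) b b (RingEquiv.refl (rf O)) s 0 1 _ hQR).1
  obtain ⟨R, hRR⟩ : ∃ R : ClassGroup (CR (rf O) l (D.μ i) b) →* ClassGroup (CR (rf O) l (D.μ i) b),
    R = R'.toMonoidHom := ⟨_, rfl⟩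
  rw [← hRR] at hR
  obtain ⟨E1', hE1⟩ := (hBT1 (rf O) (rf O) l (D.n i) (D.μ i) b b (RingEquiv.refl (rf O)) s 0 d _ hQd).1
  have hQ2 : IsQ l (D.μ i) b b (RingEquiv.refl (rf O)) 1 0 d⁻¹ 1 :=
    ⟨one_ne_zero, fun j => by rw [one_mul, add_zero]; rfl, fun j => rfl, by
      rw [inv_pow, hdl, inv_one, one_pow]⟩
  obtain ⟨E2', hE2⟩ := (hBT1 (rf O) (rf O) l (D.n i) (D.μ i) b b (RingEquiv.refl (rf O)) 1 0 d⁻¹ 1 hQ2).1
  have hSd2 := hSd _ hE1
  have hZ2 := hZ r y hyr E2'.toMonoidHom (by rw [hyd]; exact hE2)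
  have hcmp := BPL_cmp hBT1 h7 s d hd0 _ hQd R hR _ hE1 hQ2 _ hE2
  obtain ⟨P', hP⟩ := (hBT1 (rf O) (rf O) l (D.n i) (D.μ i) b b (frobeniusEquiv (rf O) p) _ 0 d' _ hQd').1
  have hSP := hSd' _ hP
  have hcom := BPL_com hBT1 h7 s _ hQR R hR p (frobeniusEquiv (rf O) p) rfl _ d' _ hQd' _ hP
  refine ⟨τ, φ, hτ, hφ, r, fun q _ hq => ?_⟩
  obtain ⟨T, hT⟩ : ∃ T : Module.End ℚ_[q] (VT q (JC Om l (D.μ i) (D.a i))),
    T = galP q hτ i ∘ₗ zK q r := ⟨_, rfl⟩
  rw [← hT]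
  -- the action on the specialisations
  have hST : ∀ (v : VT q (JC Om l (D.μ i) (D.a i))) (x : ℚ_[q]),
      S (Additive.toMul ((T v).val x)) = R (S (Additive.toMul (v.val x))) := by
    intro v x
    rw [hT, ← hcmp]
    have h1 := hSd2 (ClassGroup.mulEquiv (CR.aut (RingEquiv.refl Om) (fun _ => rfl) r)
      (Additive.toMul (v.val x)))
    rw [hZ2] at h1
    exact h1
  have hSj : ∀ (j : ℕ) (v : VT q (JC Om l (D.μ i) (D.a i))) (x : ℚ_[q]),
      S (Additive.toMul (((T ^ j) v).val x)) = R^[j] (S (Additive.toMul (v.val x))) := by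
    intro j
    induction j with
    | zero => intro v x; rfl
    | succ j ih =>
      intro v x
      rw [pow_succ, Function.iterate_succ_apply, ← hST, ← ih]
      rfl
  have hSφ2 : ∀ (v : VT q (JC Om l (D.μ i) (D.a i))) (x : ℚ_[q]),
      S (Additive.toMul ((galP q hφ i v).val x)) = P'.toMonoidHom (S (Additive.toMul (v.val x))) :=
    fun v x => hSP (Additive.toMul (v.val x))
  constructor
  · refine LinearMap.ext fun v => ?_
    rw [LinearMap.zero_apply]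
    refine hinj q hq _ (fun x => ?_)
    have h1 : ∀ m : ℕ, S (Additive.toMul (((∑ j ∈ Finset.range m, T ^ j) v).val x)) =
        ∏ j ∈ Finset.range m, R^[j] (S (Additive.toMul (v.val x))) := by
      intro m
      induction m with
      | zero =>
        rw [Finset.range_zero, Finset.sum_empty, Finset.prod_empty, LinearMap.zero_apply]
        exact map_one S
      | succ m ih =>
        rw [Finset.sum_range_succ, Finset.prod_range_succ, ← ih, ← hSj, ← map_mul]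
        rfl
    rw [h1]
    exact hBRO (rf O) l (D.n i) hl2 hm (D.μ i) b hμ hb1 s hsm hs1 R hR _
  · intro v
    rw [← sub_eq_zero]
    refine hinj q hq _ (fun x => ?_)
    have h1 : S (Additive.toMul ((galP q hφ i (T v)).val x)) =
        S (Additive.toMul (((T ^ p) (galP q hφ i v)).val x)) := by
      rw [hSφ2, hST, hSj, hSφ2]
      exact hcom _
    have h2 : ∀ a c : VT q (JC Om l (D.μ i) (D.a i)), Additive.toMul ((a - c).val x) =
        Additive.toMul (a.val x) * (Additive.toMul (c.val x))⁻¹ := by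
      intro a c
      rw [sub_eq_add_neg]
      rfl
    rw [h2, map_mul, map_inv, h1, mul_inv_cancel]

end

end Pool.Agent.AQ
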